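import Mathlib

set_option autoImplicit false

namespace Pool.Agent.Results.MP_638395_nt.AllOddWeights

open Finset

/-- The truncated sum `S_m(N) = sum_{k=0}^{N} (-1)^k (4k-1)^m ((-1/2)_k)^3 / k!^3`,
where `(-1/2)_k` is the rising factorial (`ascPochhammer`). -/
noncomputable def S (m N : ℕ) : ℚ :=
  ∑ k ∈ Finset.range (N + 1),
    (-1 : ℚ) ^ k * (4 * (k : ℚ) - 1) ^ m *
      (((ascPochhammer ℚ k).eval (-1 / 2)) ^ 3 / ((k.factorial : ℚ)) ^ 3)

/-- `x ≡ y (mod p^n)` for rationals: `x - y` is zero or has `p`-adic valuation at least `n`. -/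
def CongrModPow (p n : ℕ) (x y : ℚ) : Prop :=
  x - y = 0 ∨ (n : ℤ) ≤ padicValRat p (x - y)

/-! ### The basic sequence -/

/-- `(-1/2)_k` -/
noncomputable def P (k : ℕ) : ℚ := (ascPochhammer ℚ k).eval (-1 / 2)

lemma P_zero : P 0 = 1 := by simp [P]

lemma P_succ (k : ℕ) : P (k + 1) = P k * ((k : ℚ) - 1 / 2) := by
  unfold P
  rw [ascPochhammer_succ_eval]
  ring

lemma P_succ' (k : ℕ) : P (k + 1) = P k * ((2 * (k : ℚ) - 1) / 2) := by
  rw [P_succ]
  ring

lemma two_mul_sub_one_ne_zero (k : ℕ) : (2 * (k : ℚ) - 1) ≠ 0 := by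
  intro h
  have h2 : (2 * (k : ℚ)) = 1 := by linarith
  have h3 : (2 * k : ℕ) = 1 := by exact_mod_cast h2
  omega

lemma P_ne_zero (k : ℕ) : P k ≠ 0 := by
  induction k with
  | zero => simp [P_zero]
  | succ k ih =>
    rw [P_succ]
    refine mul_ne_zero ih ?_
    intro h
    have h2 : (2 * (k : ℚ)) = 1 := by linarith
    have h3 : (2 * k : ℕ) = 1 := by exact_mod_cast h2
    omega

/-- the summand without the weight -/
noncomputable def a (k : ℕ) : ℚ := (-1 : ℚ) ^ k * (P k ^ 3 / ((k.factorial : ℚ)) ^ 3)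

lemma a_succ (k : ℕ) : ((k : ℚ) + 1) ^ 3 * a (k + 1) = -((k : ℚ) - 1 / 2) ^ 3 * a k := by
  unfold a
  rw [P_succ, Nat.factorial_succ]
  have h1 : ((k : ℚ) + 1) ≠ 0 := by positivity
  have h2 : ((k.factorial : ℕ) : ℚ) ≠ 0 := by positivity
  push_cast
  field_simp
  ring

lemma S_eq (m N : ℕ) : S m N = ∑ k ∈ Finset.range (N + 1), (4 * (k : ℚ) - 1) ^ m * a k := by
  unfold S a P
  refine Finset.sum_congr rfl fun k _ => ?_
  ring

/-! ### Reduction of the weight -/

/-- `f` reduces to `d` times the linear weight up to the boundary term -/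
def Good (f : ℤ → ℤ) (d : ℤ) : Prop :=
  ∃ w : ℕ → ℤ, ∀ N : ℕ,
    ∑ k ∈ Finset.range (N + 1), (f (4 * (k : ℤ) - 1) : ℚ) * a k =
      (d : ℚ) * ∑ k ∈ Finset.range (N + 1), (4 * (k : ℚ) - 1) * a k +
        (w N : ℚ) * (((N : ℚ) + 1) ^ 3 * a (N + 1))

lemma Good.add {f g : ℤ → ℤ} {d e : ℤ} (hf : Good f d) (hg : Good g e) :
    Good (fun x => f x + g x) (d + e) := by
  obtain ⟨w, hw⟩ := hf
  obtain ⟨v, hv⟩ := hg
  refine ⟨fun N => w N + v N, fun N => ?_⟩
  have : ∑ k ∈ Finset.range (N + 1), ((f (4 * (k : ℤ) - 1) + g (4 * (k : ℤ) - 1) : ℤ) : ℚ) * a k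
      = ∑ k ∈ Finset.range (N + 1), (f (4 * (k : ℤ) - 1) : ℚ) * a k +
        ∑ k ∈ Finset.range (N + 1), (g (4 * (k : ℤ) - 1) : ℚ) * a k := by
    rw [← Finset.sum_add_distrib]
    refine Finset.sum_congr rfl fun k _ => ?_
    push_cast
    ring
  rw [this, hw N, hv N]
  push_cast
  ring

lemma Good.smul {f : ℤ → ℤ} {d : ℤ} (c : ℤ) (hf : Good f d) :
    Good (fun x => c * f x) (c * d) := by
  obtain ⟨w, hw⟩ := hf
  refine ⟨fun N => c * w N, fun N => ?_⟩
  have : ∑ k ∈ Finset.range (N + 1), ((c * f (4 * (k : ℤ) - 1) : ℤ) : ℚ) * a k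
      = (c : ℚ) * ∑ k ∈ Finset.range (N + 1), (f (4 * (k : ℤ) - 1) : ℚ) * a k := by
    rw [Finset.mul_sum]
    refine Finset.sum_congr rfl fun k _ => ?_
    push_cast
    ring
  rw [this, hw N]
  push_cast
  ring

lemma Good.zero : Good (fun _ => 0) 0 :=
  ⟨fun _ => 0, fun N => by simp⟩

lemma Good.id : Good (fun x => x) 1 :=
  ⟨fun _ => 0, fun N => by simp⟩

lemma Good.sum {ι : Type} (s : Finset ι) (f : ι → ℤ → ℤ) (d : ι → ℤ)
    (h : ∀ i ∈ s, Good (f i) (d i)) : Good (fun x => ∑ i ∈ s, f i x) (∑ i ∈ s, d i) := by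
  classical
  induction s using Finset.induction_on with
  | empty => simpa using Good.zero
  | insert i s his ih =>
    have h1 := h i (Finset.mem_insert_self i s)
    have h2 := ih (fun j hj => h j (Finset.mem_insert_of_mem hj))
    have := h1.add h2
    simpa [Finset.sum_insert his] using this

lemma Good.congr {f g : ℤ → ℤ} {d e : ℤ} (hf : Good f d) (h : ∀ x, f x = g x) (hd : d = e) :
    Good g e := by
  have : f = g := funext h
  rw [← this, ← hd]
  exact hf

/-- telescoping -/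
lemma Good.tele (g h : ℤ → ℤ)
    (hh : ∀ x, 2 * h x = g (x + 2) * (x - 1) ^ 3 + g (x - 2) * (x + 1) ^ 3) :
    Good h 0 := by
  refine ⟨fun N => -32 * g (4 * (N : ℤ) + 1), fun N => ?_⟩
  have key : ∀ M : ℕ, ∑ k ∈ Finset.range M, (h (4 * (k : ℤ) - 1) : ℚ) * a k =
      -32 * ((g (4 * (M : ℤ) - 3) : ℤ) : ℚ) * ((M : ℚ) ^ 3 * a M) := by
    intro M
    induction M with
    | zero => simp
    | succ M ih =>
      rw [Finset.sum_range_succ, ih]
      have e1 : ((M + 1 : ℕ) : ℚ) ^ 3 * a (M + 1) = -((M : ℚ) - 1 / 2) ^ 3 * a M := by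
        have := a_succ M
        push_cast
        exact this
      rw [e1]
      have e2 : (4 * ((M + 1 : ℕ) : ℤ) - 3) = (4 * (M : ℤ) - 1) + 2 := by push_cast; ring
      have e3 : (4 * ((M : ℕ) : ℤ) - 3) = (4 * (M : ℤ) - 1) - 2 := by ring
      rw [e2, e3]
      have e4 := hh (4 * (M : ℤ) - 1)
      have e5 : (2 : ℚ) * (h (4 * (M : ℤ) - 1) : ℚ) =
          (g (4 * (M : ℤ) - 1 + 2) : ℚ) * (4 * (M : ℚ) - 1 - 1) ^ 3 +
          (g (4 * (M : ℤ) - 1 - 2) : ℚ) * (4 * (M : ℚ) - 1 + 1) ^ 3 := by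
        exact_mod_cast e4
      have e6 : (h (4 * (M : ℤ) - 1) : ℚ) =
          ((g (4 * (M : ℤ) - 1 + 2) : ℚ) * (4 * (M : ℚ) - 1 - 1) ^ 3 +
          (g (4 * (M : ℤ) - 1 - 2) : ℚ) * (4 * (M : ℚ) - 1 + 1) ^ 3) / 2 := by
        rw [← e5]; ring
      rw [e6]
      ring
  rw [key (N + 1)]
  have e2 : (4 * ((N + 1 : ℕ) : ℤ) - 3) = (4 * (N : ℤ) + 1) := by push_cast; ring
  rw [e2]
  push_cast
  ring

lemma sum_even_odd (c : ℕ → ℤ) (n : ℕ) :
    ∑ i ∈ Finset.range (2 * n), c i = ∑ i ∈ Finset.range n, (c (2 * i) + c (2 * i + 1)) := by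
  induction n with
  | zero => simp
  | succ n ih =>
    rw [Finset.sum_range_succ _ n, ← ih]
    have : 2 * (n + 1) = 2 * n + 1 + 1 := by ring
    rw [this, Finset.sum_range_succ, Finset.sum_range_succ]
    ring

lemma Good.pow (j : ℕ) : ∃ d : ℤ, Good (fun x => x ^ (2 * j + 1)) d := by
  induction j using Nat.strong_induction_on with
  | _ j ih =>
    rcases Nat.eq_zero_or_pos j with hj | hj
    · subst hj
      exact ⟨1, Good.id.congr (fun x => by simp) rfl⟩
    · obtain ⟨i, rfl⟩ : ∃ i, j = i + 1 := ⟨j - 1, by omega⟩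
      -- the polynomial
      let q : Polynomial ℤ := (Polynomial.X + Polynomial.C 2) ^ (2 * i) *
        (Polynomial.X - Polynomial.C 1) ^ 3
      have hqm : q.Monic := by
        apply Polynomial.Monic.mul
        · exact (Polynomial.monic_X_add_C 2).pow _
        · exact (Polynomial.monic_X_sub_C 1).pow _
      have hqd : q.natDegree = 2 * i + 3 := by
        have h1 : ((Polynomial.X + Polynomial.C (2 : ℤ)) ^ (2 * i)).natDegree = 2 * i := by
          rw [(Polynomial.monic_X_add_C (2 : ℤ)).natDegree_pow, Polynomial.natDegree_X_add_C]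
          ring
        have h2 : ((Polynomial.X - Polynomial.C (1 : ℤ)) ^ 3).natDegree = 3 := by
          rw [(Polynomial.monic_X_sub_C (1 : ℤ)).natDegree_pow, Polynomial.natDegree_X_sub_C]
        rw [Polynomial.Monic.natDegree_mul ((Polynomial.monic_X_add_C 2).pow _)
          ((Polynomial.monic_X_sub_C 1).pow _), h1, h2]
      have hcoef : q.coeff (2 * (i + 1) + 1) = 1 := by
        have := hqm.coeff_natDegree
        rw [hqd] at this
        have e : 2 * (i + 1) + 1 = 2 * i + 3 := by ring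
        rw [e]; exact this
      have heval : ∀ x : ℤ, q.eval x = ∑ t ∈ Finset.range (2 * (i + 2)), q.coeff t * x ^ t := by
        intro x
        rw [Polynomial.eval_eq_sum_range' (n := 2 * (i + 2)) (by rw [hqd]; omega)]
      have hev2 : ∀ x : ℤ, q.eval x = (x + 2) ^ (2 * i) * (x - 1) ^ 3 := by
        intro x
        simp [q]
      let h : ℤ → ℤ := fun x => ∑ t ∈ Finset.range (i + 2), q.coeff (2 * t + 1) * x ^ (2 * t + 1)
      have hh : ∀ x, 2 * h x = (fun y : ℤ => y ^ (2 * i)) (x + 2) * (x - 1) ^ 3 +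
          (fun y : ℤ => y ^ (2 * i)) (x - 2) * (x + 1) ^ 3 := by
        intro x
        have e1 : q.eval x - q.eval (-x) = 2 * h x := by
          rw [heval x, heval (-x), sum_even_odd, sum_even_odd, ← Finset.sum_sub_distrib]
          simp only [h]
          rw [Finset.mul_sum]
          refine Finset.sum_congr rfl fun t _ => ?_
          have e2 : (-x) ^ (2 * t) = x ^ (2 * t) := by
            rw [pow_mul, pow_mul]; congr 1; ring
          have e3 : (-x) ^ (2 * t + 1) = - x ^ (2 * t + 1) := by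
            rw [pow_succ, pow_succ, e2]; ring
          rw [e2, e3]; ring
        rw [← e1, hev2, hev2]
        have e4 : (-x + 2) ^ (2 * i) = (x - 2) ^ (2 * i) := by
          rw [pow_mul, pow_mul]; congr 1; ring
        simp only
        rw [e4]
        ring
      have hg0 := Good.tele (fun y : ℤ => y ^ (2 * i)) h hh
      -- choose d for smaller exponents
      have hch : ∀ t : ℕ, ∃ d : ℤ, t < i + 1 → Good (fun x => x ^ (2 * t + 1)) d := by
        intro t
        by_cases ht : t < i + 1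
        · obtain ⟨d, hd⟩ := ih t ht
          exact ⟨d, fun _ => hd⟩
        · exact ⟨0, fun h => absurd h ht⟩
      choose D hD using hch
      have hsum : Good (fun x => ∑ t ∈ Finset.range (i + 1),
          (-q.coeff (2 * t + 1)) * x ^ (2 * t + 1))
          (∑ t ∈ Finset.range (i + 1), (-q.coeff (2 * t + 1)) * D t) := by
        apply Good.sum
        intro t ht
        exact Good.smul _ (hD t (Finset.mem_range.mp ht))
      have hfin := hg0.add hsum
      refine ⟨_, hfin.congr (fun x => ?_) rfl⟩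
      simp only [h]
      rw [Finset.sum_range_succ, hcoef]
      have : ∑ t ∈ Finset.range (i + 1), (-q.coeff (2 * t + 1)) * x ^ (2 * t + 1)
          = - ∑ t ∈ Finset.range (i + 1), q.coeff (2 * t + 1) * x ^ (2 * t + 1) := by
        rw [← Finset.sum_neg_distrib]
        refine Finset.sum_congr rfl fun t _ => by ring
      rw [this]
      ring


/-! ### The explicit values -/

lemma Good.val3 : Good (fun x => x ^ 3) (-3) := by
  have h := Good.tele (fun _ => 1) (fun x => x ^ 3 + 3 * x) (fun x => by ring)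
  refine (h.add (Good.id.smul (-3))).congr (fun x => ?_) (by norm_num)
  ring

lemma Good.val5 : Good (fun x => x ^ 5) (-23) := by
  have h := Good.tele (fun y => y ^ 2) (fun x => x ^ 5 - 5 * x ^ 3 + 8 * x) (fun x => by ring)
  refine ((h.add (Good.val3.smul 5)).add (Good.id.smul (-8))).congr (fun x => ?_) (by norm_num)
  ring

lemma Good.val7 : Good (fun x => x ^ 7) 5 := by
  have h := Good.tele (fun y => y ^ 4) (fun x => x ^ 7 + 3 * x ^ 5 - 16 * x ^ 3 + 16 * x)
    (fun x => by ring)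
  refine (((h.add (Good.val5.smul (-3))).add (Good.val3.smul 16)).add
    (Good.id.smul (-16))).congr (fun x => ?_) (by norm_num)
  ring

lemma Good.val9 : Good (fun x => x ^ 9) (-1647) := by
  have h := Good.tele (fun y => y ^ 6) (fun x => x ^ 9 + 27 * x ^ 7 - 72 * x ^ 5 + 48 * x ^ 3)
    (fun x => by ring)
  refine (((h.add (Good.val7.smul (-27))).add (Good.val5.smul 72)).add
    (Good.val3.smul (-48))).congr (fun x => ?_) (by norm_num)
  ring

lemma Good.val11 : Good (fun x => x ^ 11) 96973 := by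
  have h := Good.tele (fun y => y ^ 8)
    (fun x => x ^ 11 + 67 * x ^ 9 + 96 * x ^ 7 - 672 * x ^ 5 + 768 * x ^ 3 - 256 * x)
    (fun x => by ring)
  refine (((((h.add (Good.val9.smul (-67))).add (Good.val7.smul (-96))).add
    (Good.val5.smul 672)).add (Good.val3.smul (-768))).add
    (Good.id.smul 256)).congr (fun x => ?_) (by norm_num)
  ring

/-! ### A Wilf-Zeilberger pair for the linear weight -/

/-- the first member of the pair -/
noncomputable def F (n k : ℕ) : ℚ :=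
  if k ≤ n then
    (-1 : ℚ) ^ (n + k) * (4 * (n : ℚ) - 1) * P n ^ 2 * P (n + k) /
      ((n.factorial : ℚ) ^ 2 * ((n - k).factorial : ℚ) * P k ^ 2)
  else 0

/-- the second member of the pair, with the second index shifted by one -/
noncomputable def G (n k : ℕ) : ℚ :=
  if k + 1 ≤ n then
    2 * (-1 : ℚ) ^ (n + k + 1) * (n : ℚ) ^ 2 * P n ^ 2 * P (n + k) /
      ((n.factorial : ℚ) ^ 2 * ((n - (k + 1)).factorial : ℚ) * P (k + 1) ^ 2)
  else 0

lemma F_zero (n : ℕ) : F n 0 = (4 * (n : ℚ) - 1) * a n := by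
  unfold F a
  simp only [Nat.zero_le, if_true, add_zero, P_zero, Nat.sub_zero, one_pow, mul_one]
  have h2 : ((n.factorial : ℕ) : ℚ) ≠ 0 := by positivity
  field_simp

lemma wz (n k : ℕ) : F n k - F n (k + 1) = G (n + 1) k - G n k := by
  rcases lt_trichotomy n k with h | h | h
  · have h1 : ¬ k ≤ n := by omega
    have h2 : ¬ k + 1 ≤ n := by omega
    have h3 : ¬ k + 1 ≤ n + 1 := by omega
    simp [F, G, h1, h2]
  · subst h
    have h2 : ¬ n + 1 ≤ n := by omega
    have hF : F n (n + 1) = 0 := by simp [F]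
    have hG : G n n = 0 := by simp [G]
    rw [hF, hG]
    have hn : ((n.factorial : ℕ) : ℚ) ≠ 0 := by positivity
    have hP := P_ne_zero n
    have hk' : ((n : ℚ) * 2 - 1) ≠ 0 := by
      rw [mul_comm]; exact two_mul_sub_one_ne_zero n
    unfold F G
    simp only [le_refl, if_true, Nat.sub_self, Nat.factorial_zero, Nat.cast_one]
    have e1 : n + 1 + n = (n + n) + 1 := by ring
    rw [e1, P_succ' n, P_succ' (n + n), Nat.factorial_succ]
    have hs : ((n : ℚ) + 1) ≠ 0 := by positivity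
    have e2 : (-1 : ℚ) ^ (n + n + 1 + 1) = 1 := by
      rw [show n + n + 1 + 1 = 2 * (n + 1) by ring, pow_mul]; simp
    have e3 : (-1 : ℚ) ^ (n + n) = 1 := by
      rw [show n + n = 2 * n by ring, pow_mul]; simp
    rw [e2, e3]
    push_cast
    field_simp
    ring
  · obtain ⟨t, rfl⟩ : ∃ t, n = k + 1 + t := ⟨n - (k + 1), by omega⟩
    have h1 : k ≤ k + 1 + t := by omega
    have h2 : k + 1 ≤ k + 1 + t := by omega
    have h3 : k + 1 ≤ k + 1 + t + 1 := by omega
    unfold F G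
    rw [if_pos h1, if_pos h2, if_pos h3, if_pos h2]
    have e1 : k + 1 + t - k = t + 1 := by omega
    have e2 : k + 1 + t - (k + 1) = t := by omega
    have e3 : k + 1 + t + 1 - (k + 1) = t + 1 := by omega
    rw [e1, e2, e3]
    have e4 : k + 1 + t + (k + 1) = (k + 1 + t + k) + 1 := by ring
    have e5 : k + 1 + t + 1 + k = (k + 1 + t + k) + 1 := by ring
    rw [e4, e5, P_succ' (k + 1 + t + k), P_succ' k, P_succ' (k + 1 + t), Nat.factorial_succ (k + 1 + t),
      Nat.factorial_succ t]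
    have hf1 : (((k + 1 + t).factorial : ℕ) : ℚ) ≠ 0 := by positivity
    have hf2 : ((t.factorial : ℕ) : ℚ) ≠ 0 := by positivity
    have hP := P_ne_zero k
    have hk' : ((k : ℚ) * 2 - 1) ≠ 0 := by
      rw [mul_comm]; exact two_mul_sub_one_ne_zero k
    have ht : ((t : ℚ) + 1) ≠ 0 := by positivity
    have hkt : ((k : ℚ) + 1 + t + 1) ≠ 0 := by positivity
    have s1 : (-1 : ℚ) ^ (k + 1 + t + k + 1) = - (-1 : ℚ) ^ (k + 1 + t + k) := by
      rw [pow_succ]; ring
    have s2 : (-1 : ℚ) ^ (k + 1 + t + k + 1 + 1) = (-1 : ℚ) ^ (k + 1 + t + k) := by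
      rw [pow_succ, pow_succ]; ring
    rw [s2, s1]
    generalize (-1 : ℚ) ^ (k + 1 + t + k) = σ
    generalize P (k + 1 + t + k) = Q1
    generalize P (k + 1 + t) = Q2
    push_cast
    field_simp
    ring

lemma sum_F (N K : ℕ) :
    ∑ j ∈ Finset.range (N + 1), F j 0 =
      ∑ j ∈ Finset.range (N + 1), F j K + ∑ k ∈ Finset.range K, G (N + 1) k := by
  induction K with
  | zero => simp
  | succ K ih =>
    rw [ih, Finset.sum_range_succ (fun k => G (N + 1) k) K]
    have h : ∑ j ∈ Finset.range (N + 1), (F j K - F j (K + 1)) = G (N + 1) K := by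
      have : ∀ M : ℕ, ∑ j ∈ Finset.range M, (F j K - F j (K + 1)) = G M K := by
        intro M
        induction M with
        | zero => simp [G]
        | succ M ihM =>
          rw [Finset.sum_range_succ, ihM, wz]
          ring
      exact this (N + 1)
    rw [Finset.sum_sub_distrib] at h
    linarith

/-! ### `p`-adic estimates -/

section norms

variable {p : ℕ} [hp : Fact p.Prime]

lemma norm_add_lt {x y : ℚ} (h : padicNorm p x < padicNorm p y) :
    padicNorm p (x + y) = padicNorm p y := by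
  rw [padicNorm.add_eq_max_of_ne h.ne, max_eq_right h.le]

lemma norm_two (hodd : Odd p) : padicNorm p 2 = 1 := by
  have h : ¬ (p ∣ 2) := by
    intro h
    have h1 := Nat.le_of_dvd (by norm_num) h
    have h2 := hp.out.two_le
    have h3 : p = 2 := le_antisymm h1 h2
    subst h3
    exact absurd hodd (by decide)
  have := (padicNorm.nat_eq_one_iff (p := p) 2).mpr h
  exact_mod_cast this

lemma norm_le_one (m : ℕ) : padicNorm p (m : ℚ) ≤ 1 := padicNorm.of_nat m

lemma norm_pos {x : ℚ} (hx : x ≠ 0) : 0 < padicNorm p x :=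
  lt_of_le_of_ne (padicNorm.nonneg x) (Ne.symm (padicNorm.nonzero hx))

lemma norm_pow_self (r : ℕ) : padicNorm p ((p ^ r : ℕ) : ℚ) = ((p : ℚ) ^ r)⁻¹ := by
  rw [Nat.cast_pow]
  induction r with
  | zero => simp
  | succ r ih =>
    rw [pow_succ, padicNorm.mul, ih, padicNorm.padicNorm_p hp.out.one_lt, mul_inv]

lemma norm_ge {r m : ℕ} (hm : m ≠ 0) (h : ¬ p ^ r ∣ m) :
    padicNorm p ((p ^ r : ℕ) : ℚ) * p ≤ padicNorm p (m : ℚ) := by
  rw [norm_pow_self]
  have hm' : (m : ℚ) ≠ 0 := by exact_mod_cast hm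
  rw [padicNorm.eq_zpow_of_nonzero hm', padicValRat.of_nat]
  have hv : padicValNat p m < r := by
    by_contra hcon
    push Not at hcon
    exact h ((pow_dvd_pow p hcon).trans pow_padicValNat_dvd)
  have hp1 : (1 : ℚ) ≤ p := by exact_mod_cast hp.out.one_lt.le
  have hp0 : (p : ℚ) ≠ 0 := by exact_mod_cast hp.out.ne_zero
  have e : ((p : ℚ) ^ r)⁻¹ * p = (p : ℚ) ^ (-(r : ℤ) + 1) := by
    rw [zpow_add₀ hp0, zpow_neg, zpow_natCast, zpow_one]
  rw [e]
  apply zpow_le_zpow_right₀ hp1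
  omega

lemma norm_ge_of_lt {r m : ℕ} (hm : m ≠ 0) (h : m < p ^ r) :
    padicNorm p ((p ^ r : ℕ) : ℚ) * p ≤ padicNorm p (m : ℚ) :=
  norm_ge hm (fun hd => absurd (Nat.le_of_dvd (Nat.pos_of_ne_zero hm) hd) (not_le.mpr h))

lemma norm_ge_choose {r m k : ℕ} (h : m < p ^ r) (hk : k ≤ m) (hr : 1 ≤ r) :
    padicNorm p ((p ^ r : ℕ) : ℚ) * p ≤ padicNorm p ((m.choose k : ℕ) : ℚ) := by
  have h0 : m.choose k ≠ 0 := (Nat.choose_pos hk).ne'
  apply norm_ge h0
  intro hd
  have h1 : r ≤ (m.choose k).factorization p :=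
    (hp.out.pow_dvd_iff_le_factorization h0).mp hd
  have h2 := Nat.factorization_choose_le_log (p := p) (n := m) (k := k)
  have h3 : Nat.log p m < r := by
    rcases Nat.eq_zero_or_pos m with hm | hm
    · subst hm
      simp
      omega
    · exact Nat.log_lt_of_lt_pow hm.ne' h
  omega

lemma norm_n_lt {r m : ℕ} (hm : m ≠ 0) (h : m < p ^ r) :
    padicNorm p ((p ^ r : ℕ) : ℚ) < padicNorm p (m : ℚ) := by
  have h1 := norm_ge_of_lt (p := p) hm h
  have hp1 : (1 : ℚ) < p := by exact_mod_cast hp.out.one_lt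
  have hpos : 0 < padicNorm p ((p ^ r : ℕ) : ℚ) := by
    apply norm_pos
    have := hp.out.pos
    positivity
  calc padicNorm p ((p ^ r : ℕ) : ℚ) = padicNorm p ((p ^ r : ℕ) : ℚ) * 1 := by ring
    _ < padicNorm p ((p ^ r : ℕ) : ℚ) * p := by
      apply mul_lt_mul_of_pos_left hp1 hpos
    _ ≤ _ := h1

lemma norm_shift {r m : ℕ} {x : ℚ} (hm : m ≠ 0) (h : m < p ^ r) {c : ℚ} (hc : padicNorm p c = 1)
    (hx : x = (p ^ r : ℕ) + c * m) : padicNorm p x = padicNorm p (m : ℚ) := by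
  subst hx
  have h1 : padicNorm p (c * m) = padicNorm p (m : ℚ) := by
    rw [padicNorm.mul, hc, one_mul]
  rw [norm_add_lt, h1]
  rw [h1]
  exact norm_n_lt hm h

lemma norm_neg_two (hodd : Odd p) : padicNorm p (-2) = 1 := by
  rw [padicNorm.neg, norm_two hodd]

/-- norms of consecutive factorials below `p^r` -/
lemma norm_factorial_pred {r : ℕ} (k : ℕ) (hk : k + 1 ≤ p ^ r) :
    padicNorm p (((p ^ r - 1).factorial : ℕ) : ℚ) =
      padicNorm p ((k.factorial : ℕ) : ℚ) * padicNorm p (((p ^ r - 1 - k).factorial : ℕ) : ℚ) := by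
  induction k with
  | zero => simp
  | succ k ih =>
    rw [ih (by omega)]
    have e1 : p ^ r - 1 - k = (p ^ r - 1 - (k + 1)) + 1 := by omega
    rw [e1, Nat.factorial_succ, Nat.factorial_succ, Nat.cast_mul, Nat.cast_mul, padicNorm.mul,
      padicNorm.mul]
    have e2 : padicNorm p ((p ^ r - 1 - (k + 1) + 1 : ℕ) : ℚ) = padicNorm p ((k + 1 : ℕ) : ℚ) := by
      apply norm_shift (r := r) (m := k + 1) (by omega) (by omega) (c := -1)
      · rw [padicNorm.neg, padicNorm.one]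
      · have : p ^ r - 1 - (k + 1) + 1 = p ^ r - (k + 1) := by omega
        rw [this, Nat.cast_sub (by omega)]
        ring
    rw [e2]
    ring

/-! Throughout, `n = p ^ r` and `2 K = n + 1`. -/

lemma norm_P_le {r K : ℕ} (hodd : Odd p) (hK : 2 * K = p ^ r + 1) (hK2 : 2 ≤ K) (k : ℕ)
    (hk : k ≤ K) :
    padicNorm p (P k) * padicNorm p (((K - k).factorial : ℕ) : ℚ) =
      padicNorm p ((K.factorial : ℕ) : ℚ) := by
  induction k with
  | zero => simp [P_zero]
  | succ k ih =>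
    rw [← ih (by omega)]
    have e1 : K - k = (K - (k + 1)) + 1 := by omega
    rw [e1, Nat.factorial_succ, Nat.cast_mul, padicNorm.mul, P_succ', padicNorm.mul,
      padicNorm.div, norm_two hodd, div_one]
    have e2 : padicNorm p (2 * (k : ℚ) - 1) = padicNorm p ((K - (k + 1) + 1 : ℕ) : ℚ) := by
      apply norm_shift (r := r) (m := K - (k + 1) + 1) (by omega) (by omega) (c := -2)
        (norm_neg_two hodd)
      have h3 : K - (k + 1) + 1 = K - k := by omega
      rw [h3, Nat.cast_sub (by omega)]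
      have h4 : (2 * (K : ℚ)) = (p ^ r : ℕ) + 1 := by exact_mod_cast hK
      linarith
    rw [e2]
    ring

lemma norm_P_gt {r K : ℕ} (hodd : Odd p) (hK : 2 * K = p ^ r + 1) (hK2 : 2 ≤ K) (t : ℕ)
    (ht : t < p ^ r) :
    padicNorm p (P (K + 1 + t)) =
      padicNorm p ((K.factorial : ℕ) : ℚ) * padicNorm p ((p ^ r : ℕ) : ℚ) *
        padicNorm p ((t.factorial : ℕ) : ℚ) := by
  induction t with
  | zero =>
    have h1 := norm_P_le (r := r) hodd hK hK2 K le_rfl
    simp only [Nat.sub_self, Nat.factorial_zero, Nat.cast_one, padicNorm.one, mul_one] at h1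
    rw [add_zero, P_succ', padicNorm.mul, h1, padicNorm.div, norm_two hodd, div_one]
    have h4 : (2 * (K : ℚ) - 1) = (p ^ r : ℕ) := by
      have : (2 * (K : ℚ)) = (p ^ r : ℕ) + 1 := by exact_mod_cast hK
      linarith
    rw [h4]
    simp
  | succ t ih =>
    have e1 : K + 1 + (t + 1) = (K + 1 + t) + 1 := by ring
    rw [e1, P_succ', padicNorm.mul, ih (by omega), padicNorm.div, norm_two hodd, div_one,
      Nat.factorial_succ, Nat.cast_mul, padicNorm.mul]
    have e2 : padicNorm p (2 * ((K + 1 + t : ℕ) : ℚ) - 1) = padicNorm p ((t + 1 : ℕ) : ℚ) := by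
      apply norm_shift (r := r) (m := t + 1) (by omega) ht (c := 2) (norm_two hodd)
      have h4 : (2 * (K : ℚ)) = (p ^ r : ℕ) + 1 := by exact_mod_cast hK
      push_cast at h4 ⊢
      linarith
    rw [e2]
    ring

lemma norm_K {r K : ℕ} (hodd : Odd p) (hK : 2 * K = p ^ r + 1) (hr : 1 ≤ r) :
    padicNorm p (K : ℚ) = 1 := by
  have h1 : padicNorm p (2 * (K : ℚ)) = 1 := by
    have h4 : (2 * (K : ℚ)) = (p ^ r : ℕ) + 1 := by exact_mod_cast hK
    rw [h4]
    have : padicNorm p ((p ^ r : ℕ) : ℚ) < padicNorm p (1 : ℚ) := by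
      have := norm_n_lt (p := p) (r := r) (m := 1) one_ne_zero (by
        have := hp.out.one_lt
        exact Nat.one_lt_pow (by omega) this)
      simpa using this
    rw [norm_add_lt this, padicNorm.one]
  rwa [padicNorm.mul, norm_two hodd, one_mul] at h1

lemma norm_sq_sign (m : ℕ) (x : ℚ) : padicNorm p ((-1 : ℚ) ^ m * x) = padicNorm p x := by
  rw [padicNorm.mul]
  rcases neg_one_pow_eq_or ℚ m with h | h
  · rw [h, padicNorm.one, one_mul]
  · rw [h, padicNorm.neg, padicNorm.one, one_mul]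

lemma closing {x y z ν q : ℚ} (hx : 0 ≤ x) (hν : 0 < ν) (hq : 0 < q) (h : x * (y * z) = ν ^ 3)
    (hy : ν * q ≤ y) (hz : ν * q ≤ z) : x * q ^ 2 ≤ ν := by
  have hνq : 0 < ν * q := mul_pos hν hq
  have h1 : (ν * q) * (ν * q) ≤ y * z := mul_le_mul hy hz hνq.le (hνq.le.trans hy)
  have h2 : x * ((ν * q) * (ν * q)) ≤ x * (y * z) := mul_le_mul_of_nonneg_left h1 hx
  rw [h] at h2
  have h3 : (x * q ^ 2) * ν ^ 2 ≤ ν * ν ^ 2 := by nlinarith [h2]
  exact le_of_mul_le_mul_right h3 (by positivity)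

lemma norm_n_pos (r : ℕ) : 0 < padicNorm p ((p ^ r : ℕ) : ℚ) := by
  apply norm_pos
  have := hp.out.pos
  positivity

lemma norm_fact_pos (k : ℕ) : 0 < padicNorm p ((k.factorial : ℕ) : ℚ) := by
  apply norm_pos
  positivity

lemma norm_P_pos (k : ℕ) : 0 < padicNorm p (P k) := norm_pos (P_ne_zero k)

/-- `|K!| = |C(K-1,k)| |k!| |(K-1-k)!|` -/
lemma norm_fact_K {r K k : ℕ} (hodd : Odd p) (hK : 2 * K = p ^ r + 1) (hr : 1 ≤ r)
    (hk : k < K) :
    padicNorm p ((K.factorial : ℕ) : ℚ) = padicNorm p (((K - 1).choose k : ℕ) : ℚ) *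
      padicNorm p ((k.factorial : ℕ) : ℚ) * padicNorm p (((K - (k + 1)).factorial : ℕ) : ℚ) := by
  have e1 : K = (K - 1) + 1 := by omega
  have h1 : padicNorm p ((K.factorial : ℕ) : ℚ) = padicNorm p (((K - 1).factorial : ℕ) : ℚ) := by
    conv_lhs => rw [e1]
    rw [Nat.factorial_succ, Nat.cast_mul, padicNorm.mul, ← e1, norm_K hodd hK hr, one_mul]
  rw [h1, ← Nat.choose_mul_factorial_mul_factorial (show k ≤ K - 1 by omega)]
  have e2 : K - 1 - k = K - (k + 1) := by omega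
  rw [e2]
  push_cast
  rw [padicNorm.mul, padicNorm.mul]

lemma norm_P_low {r K : ℕ} (hodd : Odd p) (hK : 2 * K = p ^ r + 1) (hK2 : 2 ≤ K) (k : ℕ)
    (hk : k ≤ K) :
    padicNorm p (P k) = padicNorm p ((K.factorial : ℕ) : ℚ) /
      padicNorm p (((K - k).factorial : ℕ) : ℚ) := by
  rw [eq_div_iff (norm_fact_pos _).ne']
  exact norm_P_le hodd hK hK2 k hk

lemma G_norm_K {r K k : ℕ} (hodd : Odd p) (hK : 2 * K = p ^ r + 1) (hK2 : 2 ≤ K) (hr : 1 ≤ r)
    (hk : k < K) :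
    padicNorm p (G (K + 1) k) * (p : ℚ) ^ 2 ≤ padicNorm p ((p ^ r : ℕ) : ℚ) := by
  have hlt : K < p ^ r := by omega
  set ν := padicNorm p ((p ^ r : ℕ) : ℚ) with hν
  have hνpos : 0 < ν := norm_n_pos r
  apply closing (y := padicNorm p ((K - k : ℕ) : ℚ))
    (z := padicNorm p (((K - 1).choose k : ℕ) : ℚ)) (padicNorm.nonneg _) hνpos
    (by exact_mod_cast hp.out.pos)
  · unfold G
    rw [if_pos (by omega)]
    have e0 : (2 * (-1 : ℚ) ^ (K + 1 + k + 1) * ((K + 1 : ℕ) : ℚ) ^ 2 * P (K + 1) ^ 2 *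
        P (K + 1 + k) / (((K + 1).factorial : ℚ) ^ 2 * ((K + 1 - (k + 1)).factorial : ℚ) *
          P (k + 1) ^ 2)) =
        (-1 : ℚ) ^ (K + 1 + k + 1) * (2 * (P (K + 1) ^ 2 * P (K + 1 + k)) /
          ((K.factorial : ℚ) ^ 2 * ((K + 1 - (k + 1)).factorial : ℚ) * P (k + 1) ^ 2)) := by
      rw [Nat.factorial_succ]
      have h1 : ((K.factorial : ℕ) : ℚ) ≠ 0 := by positivity
      have h2 : ((K : ℚ) + 1) ≠ 0 := by positivity
      have h3 : (((K + 1 - (k + 1)).factorial : ℕ) : ℚ) ≠ 0 := by positivity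
      have h4 := P_ne_zero (k + 1)
      push_cast
      field_simp
    rw [e0, norm_sq_sign]
    have e3 : K + 1 - (k + 1) = (K - (k + 1)) + 1 := by omega
    have e4 : K - (k + 1) + 1 = K - k := by omega
    rw [padicNorm.div, padicNorm.mul, padicNorm.mul, padicNorm.mul, padicNorm.mul, norm_two hodd,
      e3, Nat.factorial_succ, e4, sq, padicNorm.mul, sq, padicNorm.mul, sq, padicNorm.mul,
      Nat.cast_mul, padicNorm.mul]
    have hA := norm_P_gt (r := r) hodd hK hK2 0 (by omega)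
    rw [add_zero, Nat.factorial_zero, Nat.cast_one, padicNorm.one, mul_one] at hA
    have hB := norm_P_gt (r := r) hodd hK hK2 k (by omega)
    have hC := norm_P_low (r := r) hodd hK hK2 (k + 1) (by omega)
    have hf := norm_fact_K (r := r) hodd hK hr hk
    rw [hA, hB, hC, hf]
    have p1 : padicNorm p (((K - 1).choose k : ℕ) : ℚ) ≠ 0 := by
      apply (norm_pos _).ne'
      have := Nat.choose_pos (show k ≤ K - 1 by omega)
      positivity
    have p2 := (norm_fact_pos (p := p) k).ne'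
    have p3 := (norm_fact_pos (p := p) (K - (k + 1))).ne'
    have p4 : padicNorm p ((K - k : ℕ) : ℚ) ≠ 0 := by
      apply (norm_pos _).ne'
      have : K - k ≠ 0 := by omega
      exact_mod_cast this
    rw [← hν]
    field_simp
  · exact norm_ge_of_lt (by omega) (by omega)
  · exact norm_ge_choose (by omega) (by omega) hr

lemma G_norm_n {r K k : ℕ} (hodd : Odd p) (hK : 2 * K = p ^ r + 1) (hK2 : 2 ≤ K) (hr : 1 ≤ r)
    (hk : k < K) :
    padicNorm p (G (p ^ r) k) * (p : ℚ) ^ 2 ≤ padicNorm p ((p ^ r : ℕ) : ℚ) := by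
  have hlt : K < p ^ r := by omega
  have hn3 : 3 ≤ p ^ r := by omega
  set ν := padicNorm p ((p ^ r : ℕ) : ℚ) with hν
  have hνpos : 0 < ν := norm_n_pos r
  apply closing (y := padicNorm p (((p ^ r - 2).choose (K - (k + 1)) : ℕ) : ℚ))
    (z := padicNorm p (((K - 1).choose k : ℕ) : ℚ)) (padicNorm.nonneg _) hνpos
    (by exact_mod_cast hp.out.pos)
  · unfold G
    rw [if_pos (by omega)]
    have e0 : (2 * (-1 : ℚ) ^ (p ^ r + k + 1) * ((p ^ r : ℕ) : ℚ) ^ 2 * P (p ^ r) ^ 2 *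
        P (p ^ r + k) / (((p ^ r).factorial : ℚ) ^ 2 * ((p ^ r - (k + 1)).factorial : ℚ) *
          P (k + 1) ^ 2)) =
        (-1 : ℚ) ^ (p ^ r + k + 1) * (2 * (P (p ^ r) ^ 2 * P (p ^ r + k)) /
          ((((p ^ r - 1).factorial : ℕ) : ℚ) ^ 2 * ((p ^ r - (k + 1)).factorial : ℚ) *
            P (k + 1) ^ 2)) := by
      have h0 : (p ^ r).factorial = (p ^ r) * (p ^ r - 1).factorial :=
        (Nat.mul_factorial_pred (by omega)).symm
      rw [h0]
      have h1 : (((p ^ r - 1).factorial : ℕ) : ℚ) ≠ 0 := by positivity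
      have h2 : ((p ^ r : ℕ) : ℚ) ≠ 0 := by
        have : p ^ r ≠ 0 := by omega
        exact_mod_cast this
      have h3 : (((p ^ r - (k + 1)).factorial : ℕ) : ℚ) ≠ 0 := by positivity
      have h4 := P_ne_zero (k + 1)
      rw [Nat.cast_mul]
      field_simp
    rw [e0, norm_sq_sign]
    rw [padicNorm.div, padicNorm.mul, padicNorm.mul, padicNorm.mul, padicNorm.mul, norm_two hodd,
      sq, padicNorm.mul, sq, padicNorm.mul, sq, padicNorm.mul]
    have hA := norm_P_gt (r := r) hodd hK hK2 (K - 2) (by omega)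
    have eA : K + 1 + (K - 2) = p ^ r := by omega
    rw [eA] at hA
    have hB := norm_P_gt (r := r) hodd hK hK2 (K - 2 + k) (by omega)
    have eB : K + 1 + (K - 2 + k) = p ^ r + k := by omega
    rw [eB] at hB
    have hC := norm_P_low (r := r) hodd hK hK2 (k + 1) (by omega)
    have hf := norm_fact_K (r := r) hodd hK hr hk
    have hN := norm_factorial_pred (p := p) (r := r) K (by omega)
    have eN : p ^ r - 1 - K = K - 2 := by omega
    rw [eN] at hN
    have hN2 := norm_factorial_pred (p := p) (r := r) k (by omega)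
    have eN2 : p ^ r - 1 - k = p ^ r - (k + 1) := by omega
    rw [eN2] at hN2
    -- (n-1)! = (n-1) (n-2)!
    have hN3 : padicNorm p (((p ^ r - 1).factorial : ℕ) : ℚ) =
        padicNorm p (((p ^ r - 2).choose (K - (k + 1)) : ℕ) : ℚ) *
        padicNorm p (((K - (k + 1)).factorial : ℕ) : ℚ) *
        padicNorm p (((K - 2 + k).factorial : ℕ) : ℚ) := by
      have h0 : p ^ r - 1 = (p ^ r - 2) + 1 := by omega
      have h1 : padicNorm p ((p ^ r - 2 + 1 : ℕ) : ℚ) = 1 := by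
        have := norm_shift (p := p) (r := r) (m := 1) (x := ((p ^ r - 2 + 1 : ℕ) : ℚ)) (by omega)
          (by omega) (c := -1) (by rw [padicNorm.neg, padicNorm.one]) (by
            rw [← h0, Nat.cast_sub (by omega)]
            push_cast
            ring)
        rw [this]
        simp
      rw [h0, Nat.factorial_succ, Nat.cast_mul, padicNorm.mul, h1, one_mul,
        ← Nat.choose_mul_factorial_mul_factorial (show K - (k + 1) ≤ p ^ r - 2 by omega)]
      have e5 : p ^ r - 2 - (K - (k + 1)) = K - 2 + k := by omega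
      rw [e5]
      push_cast
      rw [padicNorm.mul, padicNorm.mul]
    have p1 : padicNorm p (((K - 1).choose k : ℕ) : ℚ) ≠ 0 := by
      apply (norm_pos _).ne'
      have := Nat.choose_pos (show k ≤ K - 1 by omega)
      positivity
    have p2 := (norm_fact_pos (p := p) k).ne'
    have p3 := (norm_fact_pos (p := p) (K - (k + 1))).ne'
    have p4 := (norm_fact_pos (p := p) (K - 2 + k)).ne'
    have p5 := (norm_fact_pos (p := p) (K - 2)).ne'
    have p6 := (norm_fact_pos (p := p) (p ^ r - (k + 1))).ne'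
    have p7 : padicNorm p (((p ^ r - 2).choose (K - (k + 1)) : ℕ) : ℚ) ≠ 0 := by
      apply (norm_pos _).ne'
      have := Nat.choose_pos (show K - (k + 1) ≤ p ^ r - 2 by omega)
      positivity
    have p8 := (norm_fact_pos (p := p) K).ne'
    rw [← hν] at hA hB
    generalize padicNorm p (P (p ^ r)) = A at *
    generalize padicNorm p (P (p ^ r + k)) = B at *
    generalize padicNorm p (P (k + 1)) = C at *
    generalize padicNorm p (((p ^ r - 1).factorial : ℕ) : ℚ) = N1 at *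
    generalize padicNorm p (((K.factorial : ℕ) : ℚ)) = fK at *
    generalize padicNorm p (((K - 1).choose k : ℕ) : ℚ) = c at *
    generalize padicNorm p (((p ^ r - 2).choose (K - (k + 1)) : ℕ) : ℚ) = c2 at *
    generalize padicNorm p (((k.factorial : ℕ) : ℚ)) = kf at *
    generalize padicNorm p (((K - (k + 1)).factorial : ℕ) : ℚ) = g at *
    generalize padicNorm p (((K - 2 + k).factorial : ℕ) : ℚ) = m at *
    generalize padicNorm p (((K - 2).factorial : ℕ) : ℚ) = h at *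
    generalize padicNorm p (((p ^ r - (k + 1)).factorial : ℕ) : ℚ) = q at *
    -- N1 = fK h, N1 = kf q, N1 = c2 g m, fK = c kf g
    have hh : h = N1 / fK := by rw [hN]; field_simp
    have hq : q = N1 / kf := by rw [hN2]; field_simp
    have hN1 : N1 ≠ 0 := by rw [hN]; exact mul_ne_zero p8 p5
    rw [hA, hB, hC, hh, hq]
    have e9 : (1 : ℚ) * (fK * ν * (N1 / fK) * (fK * ν * (N1 / fK)) * (fK * ν * m)) /
        (N1 * N1 * (N1 / kf) * (fK / g * (fK / g))) * (c2 * c) =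
        ν ^ 3 * (c2 * g * m) * (c * kf * g) / (N1 * fK) := by
      field_simp
    rw [e9, ← hN3, ← hf]
    field_simp
  · exact norm_ge_choose (by omega) (by omega) hr
  · exact norm_ge_choose (by omega) (by omega) hr

/-- `p` divides `C(2l,l)` and `C(2l,l+1)` for `l` in the upper half -/
lemma dvd_choose_upper {r l : ℕ} (hl : p ^ r ≤ 2 * l) (s : ℕ) (hs : s < p ^ r)
    (hs3 : s ≤ 2 * l) (hr : 1 ≤ r) (hls : 2 * l - s < p ^ r) :
    p ∣ (2 * l).choose s := by
  have h1 : padicValNat p ((2 * l).choose s) = _ :=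
    padicValNat_choose (b := Nat.log p (2 * l) + r + 1) hs3 (by omega)
  have h2 : 1 ≤ padicValNat p ((2 * l).choose s) := by
    rw [h1]
    apply Finset.card_pos.mpr
    refine ⟨r, ?_⟩
    simp only [Finset.mem_filter, Finset.mem_Ico]
    refine ⟨⟨hr, by omega⟩, ?_⟩
    rw [Nat.mod_eq_of_lt hs, Nat.mod_eq_of_lt hls]
    omega
  exact (dvd_pow_self p (by omega : padicValNat p ((2 * l).choose s) ≠ 0)).trans
    pow_padicValNat_dvd

lemma P_closed (l : ℕ) :
    P (l + 1) * (2 * 4 ^ l * (l.factorial : ℚ)) = -(((2 * l).factorial : ℕ) : ℚ) := by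
  induction l with
  | zero =>
    rw [P_succ', P_zero]
    norm_num
  | succ l ih =>
    rw [P_succ', Nat.factorial_succ]
    have e1 : 2 * (l + 1) = (2 * l + 1) + 1 := by ring
    rw [e1, Nat.factorial_succ, Nat.factorial_succ]
    have e2 : P (l + 1) * ((2 * ((l + 1 : ℕ) : ℚ) - 1) / 2) *
        (2 * 4 ^ (l + 1) * (((l + 1) * l.factorial : ℕ) : ℚ)) =
        (P (l + 1) * (2 * 4 ^ l * (l.factorial : ℚ))) * ((2 * (l : ℚ) + 1) * (2 * (l : ℚ) + 2)) := by
      push_cast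
      ring
    rw [e2, ih]
    push_cast
    ring

lemma P_div_fact (l : ℕ) :
    P (l + 1) / (((l + 1).factorial : ℕ) : ℚ) =
      -((((2 * l).choose l : ℕ) : ℚ) - (((2 * l).choose (l + 1) : ℕ) : ℚ)) / (2 * 4 ^ l) := by
  have h1 := P_closed l
  have hl : ((l.factorial : ℕ) : ℚ) ≠ 0 := by positivity
  have hl1 : ((l : ℚ) + 1) ≠ 0 := by positivity
  -- (2l)! = C(2l,l) l! l!
  have h2 : (((2 * l).factorial : ℕ) : ℚ) = ((2 * l).choose l : ℕ) * (l.factorial : ℚ) *
      (l.factorial : ℚ) := by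
    have := Nat.choose_mul_factorial_mul_factorial (show l ≤ 2 * l by omega)
    rw [show 2 * l - l = l by omega] at this
    exact_mod_cast this.symm
  have h3 : (((2 * l).choose (l + 1) : ℕ) : ℚ) * ((l : ℚ) + 1) = ((2 * l).choose l : ℕ) * (l : ℚ) := by
    have := Nat.choose_succ_right_eq (2 * l) l
    rw [show 2 * l - l = l by omega] at this
    exact_mod_cast this
  have h4 : (((2 * l).choose (l + 1) : ℕ) : ℚ) = ((2 * l).choose l : ℕ) * (l : ℚ) / ((l : ℚ) + 1) := by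
    rw [← h3]; field_simp
  have h5 : P (l + 1) = -(((2 * l).choose l : ℕ) * (l.factorial : ℚ)) / (2 * 4 ^ l) := by
    rw [eq_div_iff (by positivity)]
    have : P (l + 1) * (2 * 4 ^ l) * (l.factorial : ℚ) =
      -(((2 * l).choose l : ℕ) * (l.factorial : ℚ)) * (l.factorial : ℚ) := by
      rw [h2] at h1
      linarith
    exact mul_right_cancel₀ hl this
  rw [h5, h4, Nat.factorial_succ]
  push_cast
  field_simp
  ring

lemma norm_four_pow (hodd : Odd p) (l : ℕ) : padicNorm p (2 * (4 : ℚ) ^ l) = 1 := by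
  have h4 : (4 : ℚ) = 2 * 2 := by norm_num
  have h5 : padicNorm p (4 : ℚ) = 1 := by rw [h4, padicNorm.mul, norm_two hodd, one_mul]
  rw [padicNorm.mul, norm_two hodd, one_mul]
  induction l with
  | zero => simp
  | succ l ih => rw [pow_succ, padicNorm.mul, ih, h5, one_mul]

lemma norm_le_inv_of_dvd {m : ℕ} (h : p ∣ m) : padicNorm p (m : ℚ) ≤ (p : ℚ)⁻¹ := by
  have := (padicNorm.dvd_iff_norm_le (p := p) (n := 1) (z := (m : ℤ))).mp (by
    rw [pow_one]; exact_mod_cast h)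
  simpa using this

lemma norm_P_div_fact {r K j : ℕ} (hodd : Odd p) (hK : 2 * K = p ^ r + 1) (hr : 1 ≤ r)
    (hj : K < j) (hj2 : j < p ^ r) :
    padicNorm p (P j / ((j.factorial : ℕ) : ℚ)) ≤ (p : ℚ)⁻¹ := by
  obtain ⟨l, rfl⟩ : ∃ l, j = l + 1 := ⟨j - 1, by omega⟩
  rw [P_div_fact, padicNorm.div, norm_four_pow hodd, div_one, padicNorm.neg]
  have h1 : p ∣ (2 * l).choose l :=
    dvd_choose_upper (r := r) (by omega) l (by omega) (by omega) hr (by omega)
  have h2 : p ∣ (2 * l).choose (l + 1) :=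
    dvd_choose_upper (r := r) (by omega) (l + 1) (by omega) (by omega) hr (by omega)
  refine (padicNorm.sub).trans (max_le (norm_le_inv_of_dvd h1) (norm_le_inv_of_dvd h2))

lemma F_norm {r K j : ℕ} (hodd : Odd p) (hK : 2 * K = p ^ r + 1) (hK2 : 2 ≤ K) (hr : 1 ≤ r)
    (hj : K < j) (hj2 : j < p ^ r) :
    padicNorm p (F j K) * (p : ℚ) ^ 2 ≤ padicNorm p ((p ^ r : ℕ) : ℚ) := by
  set ν := padicNorm p ((p ^ r : ℕ) : ℚ) with hν
  have hνpos : 0 < ν := norm_n_pos r
  have hp0 : (0 : ℚ) < p := by exact_mod_cast hp.out.pos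
  have hy := norm_P_div_fact (r := r) hodd hK hr hj hj2
  unfold F
  rw [if_pos (by omega)]
  have e0 : (-1 : ℚ) ^ (j + K) * (4 * (j : ℚ) - 1) * P j ^ 2 * P (j + K) /
      ((j.factorial : ℚ) ^ 2 * ((j - K).factorial : ℚ) * P K ^ 2) =
      (-1 : ℚ) ^ (j + K) * ((4 * (j : ℚ) - 1) * ((P j / (j.factorial : ℚ)) *
        (P j / (j.factorial : ℚ))) * (P (j + K) / (((j - K).factorial : ℚ) * (P K * P K)))) := by
    have h1 : ((j.factorial : ℕ) : ℚ) ≠ 0 := by positivity
    have h3 : (((j - K).factorial : ℕ) : ℚ) ≠ 0 := by positivity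
    have h4 := P_ne_zero K
    field_simp
  rw [e0, norm_sq_sign]
  rw [padicNorm.mul, padicNorm.mul, padicNorm.mul, padicNorm.div _ (_ * (_ * _)), padicNorm.mul,
    padicNorm.mul]
  have hB := norm_P_gt (r := r) hodd hK hK2 (j - 1) (by omega)
  rw [show K + 1 + (j - 1) = j + K by omega] at hB
  have hC := norm_P_low (r := r) hodd hK hK2 K le_rfl
  rw [Nat.sub_self, Nat.factorial_zero, Nat.cast_one, padicNorm.one, div_one] at hC
  have h4j : padicNorm p (4 * (j : ℚ) - 1) ≤ 1 := by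
    have := padicNorm.of_int (p := p) (4 * (j : ℤ) - 1)
    exact_mod_cast this
  have hfj : padicNorm p (((j - 1).factorial : ℕ) : ℚ) =
      padicNorm p (((j - 1).choose (K - 1) : ℕ) : ℚ) * padicNorm p ((K.factorial : ℕ) : ℚ) *
        padicNorm p (((j - K).factorial : ℕ) : ℚ) := by
    have e1 : K = (K - 1) + 1 := by omega
    have h1 : padicNorm p ((K.factorial : ℕ) : ℚ) = padicNorm p (((K - 1).factorial : ℕ) : ℚ) := by
      conv_lhs => rw [e1]
      rw [Nat.factorial_succ, Nat.cast_mul, padicNorm.mul, ← e1, norm_K hodd hK hr, one_mul]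
    rw [h1, ← Nat.choose_mul_factorial_mul_factorial (show K - 1 ≤ j - 1 by omega)]
    rw [show j - 1 - (K - 1) = j - K by omega]
    push_cast
    rw [padicNorm.mul, padicNorm.mul]
  have hch : padicNorm p (((j - 1).choose (K - 1) : ℕ) : ℚ) ≤ 1 := norm_le_one _
  have p3 := (norm_fact_pos (p := p) (j - K)).ne'
  have p8 := (norm_fact_pos (p := p) K).ne'
  have hX : padicNorm p (P (j + K)) /
      (padicNorm p (((j - K).factorial : ℕ) : ℚ) * (padicNorm p (P K) * padicNorm p (P K))) =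
      ν * padicNorm p (((j - 1).choose (K - 1) : ℕ) : ℚ) := by
    rw [hB, hC, hfj, ← hν]
    field_simp
  rw [hX]
  have hy0 := padicNorm.nonneg (p := p) (P j / ((j.factorial : ℕ) : ℚ))
  have h40 := padicNorm.nonneg (p := p) (4 * (j : ℚ) - 1)
  have hc0 := padicNorm.nonneg (p := p) ((((j - 1).choose (K - 1) : ℕ) : ℚ))
  generalize padicNorm p (P j / ((j.factorial : ℕ) : ℚ)) = y at *
  generalize padicNorm p (4 * (j : ℚ) - 1) = u at *
  generalize padicNorm p ((((j - 1).choose (K - 1) : ℕ) : ℚ)) = c at *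
  have hyp : y * p ≤ 1 := by
    calc y * p ≤ (p : ℚ)⁻¹ * p := mul_le_mul_of_nonneg_right hy hp0.le
      _ = 1 := by field_simp
  have hyp0 : 0 ≤ y * p := mul_nonneg hy0 hp0.le
  have h5 : (y * p) * (y * p) ≤ 1 * 1 := mul_le_mul hyp hyp hyp0 zero_le_one
  have h6 : u * c ≤ 1 * 1 := mul_le_mul h4j hch hc0 zero_le_one
  have h7 : (u * c) * ((y * p) * (y * p)) ≤ (1 * 1) * (1 * 1) :=
    mul_le_mul h6 h5 (mul_nonneg hyp0 hyp0) (by norm_num)
  calc u * (y * y) * (ν * c) * (p : ℚ) ^ 2 = ν * ((u * c) * ((y * p) * (y * p))) := by ring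
    _ ≤ ν * ((1 * 1) * (1 * 1)) := mul_le_mul_of_nonneg_left h7 hνpos.le
    _ = ν := by ring

/-! ### The main term -/

lemma P_refl {n K : ℕ} (hK : 2 * K = n + 1) (t : ℕ) (ht : t ≤ K) :
    P (K + 1 + t) = P (K - t) * ((n : ℚ) / 2) *
      ∏ s ∈ Finset.range t, (((n : ℚ) ^ 2 - 4 * ((s : ℚ) + 1) ^ 2) / 4) := by
  have h4 : (2 * (K : ℚ)) = (n : ℚ) + 1 := by exact_mod_cast hK
  have h5 : (K : ℚ) = ((n : ℚ) + 1) / 2 := by linarith
  induction t with
  | zero =>
    rw [add_zero, P_succ', Nat.sub_zero, Finset.prod_range_zero, mul_one, h4]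
    ring
  | succ t ih =>
    have e1 : K + 1 + (t + 1) = (K + 1 + t) + 1 := by ring
    have e2 : K - t = (K - (t + 1)) + 1 := by omega
    rw [e1, P_succ', ih (by omega), e2, P_succ', Finset.prod_range_succ]
    rw [Nat.cast_sub (by omega)]
    push_cast
    rw [h5]
    ring

/-- the unit part -/
noncomputable def U (n t : ℕ) : ℚ :=
  ∏ s ∈ Finset.range t, (1 - (n : ℚ) ^ 2 / (4 * ((s : ℚ) + 1) ^ 2))

lemma prod_U (n t : ℕ) :
    ∏ s ∈ Finset.range t, (((n : ℚ) ^ 2 - 4 * ((s : ℚ) + 1) ^ 2) / 4) =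
      (-1) ^ t * ((t.factorial : ℕ) : ℚ) ^ 2 * U n t := by
  unfold U
  induction t with
  | zero => simp
  | succ t ih =>
    rw [Finset.prod_range_succ, ih, Finset.prod_range_succ, Nat.factorial_succ]
    have h : ((t : ℚ) + 1) ≠ 0 := by positivity
    push_cast
    field_simp
    ring

lemma F_KK {n K : ℕ} (hK : 2 * K = n + 1) (hK2 : 2 ≤ K) :
    F K K + (-1) ^ (K - 1) * (n : ℚ) =
      (-1) ^ (K - 1) * ((n : ℚ) * ((n : ℚ) * (n : ℚ) + (2 * (n : ℚ) + 1) * (1 - U n (K - 1))) /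
        ((2 * (K : ℚ)) * (2 * (K : ℚ)))) := by
  have h4 : (2 * (K : ℚ)) = (n : ℚ) + 1 := by exact_mod_cast hK
  have h1 := P_refl hK (K - 1) (by omega)
  rw [show K + 1 + (K - 1) = K + K by omega, show K - (K - 1) = 0 + 1 by omega, P_succ', P_zero,
    prod_U] at h1
  unfold F
  rw [if_pos le_rfl, Nat.sub_self, Nat.factorial_zero]
  have e0 : (-1 : ℚ) ^ (K + K) = 1 := by
    rw [show K + K = 2 * K by ring, pow_mul]; simp
  have hP := P_ne_zero K
  have hf : K.factorial = K * (K - 1).factorial := (Nat.mul_factorial_pred (by omega)).symm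
  rw [h1, e0, hf]
  have hk1 : (((K - 1).factorial : ℕ) : ℚ) ≠ 0 := by positivity
  have hK0 : (K : ℚ) ≠ 0 := by
    have : K ≠ 0 := by omega
    exact_mod_cast this
  have e4 : (4 * (K : ℚ) - 1) = 2 * (n : ℚ) + 1 := by linarith
  rw [e4]
  have h5 : (n : ℚ) = 2 * (K : ℚ) - 1 := by linarith
  rw [h5]
  push_cast
  field_simp
  ring

lemma U_norm {r t : ℕ} (hodd : Odd p) (ht : t < p ^ r) :
    padicNorm p (1 - U (p ^ r) t) * (p : ℚ) ^ 2 ≤ 1 := by
  have hp0 : (0 : ℚ) < p := by exact_mod_cast hp.out.pos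
  have hp1 : (1 : ℚ) ≤ p := by exact_mod_cast hp.out.one_lt.le
  induction t with
  | zero => simp [U]
  | succ t ih =>
    have ih' := ih (by omega)
    set y : ℚ := ((p ^ r : ℕ) : ℚ) ^ 2 / (4 * ((t : ℚ) + 1) ^ 2) with hy
    have e1 : 1 - U (p ^ r) (t + 1) = (1 - U (p ^ r) t) + U (p ^ r) t * y := by
      unfold U
      rw [Finset.prod_range_succ, hy]
      ring
    -- |y| ≤ p^{-2}
    have hyn : padicNorm p y * (p : ℚ) ^ 2 ≤ 1 := by
      have e2 : y = (((p ^ r : ℕ) : ℚ) / (2 * ((t + 1 : ℕ) : ℚ))) *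
          (((p ^ r : ℕ) : ℚ) / (2 * ((t + 1 : ℕ) : ℚ))) := by
        rw [hy]
        have h : ((t : ℚ) + 1) ≠ 0 := by positivity
        push_cast
        field_simp
        ring
      rw [e2, padicNorm.mul, padicNorm.div, padicNorm.mul, norm_two hodd, one_mul]
      have h1 := norm_ge_of_lt (p := p) (r := r) (m := t + 1) (by omega) ht
      have h2 : 0 < padicNorm p ((t + 1 : ℕ) : ℚ) := by
        apply norm_pos
        positivity
      have h3 : padicNorm p ((p ^ r : ℕ) : ℚ) / padicNorm p ((t + 1 : ℕ) : ℚ) * p ≤ 1 := by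
        rw [div_mul_eq_mul_div, div_le_one h2]
        exact h1
      have h4 : 0 ≤ padicNorm p ((p ^ r : ℕ) : ℚ) / padicNorm p ((t + 1 : ℕ) : ℚ) * p := by
        have := padicNorm.nonneg (p := p) ((p ^ r : ℕ) : ℚ)
        positivity
      nlinarith [mul_le_mul h3 h3 h4 zero_le_one]
    have hU : padicNorm p (U (p ^ r) t) ≤ 1 := by
      have e3 : U (p ^ r) t = 1 - (1 - U (p ^ r) t) := by ring
      rw [e3]
      refine (padicNorm.sub).trans (max_le (by simp) ?_)
      have h0 := padicNorm.nonneg (p := p) (1 - U (p ^ r) t)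
      have h1 : padicNorm p (1 - U (p ^ r) t) * 1 ≤ padicNorm p (1 - U (p ^ r) t) * (p : ℚ) ^ 2 := by
        apply mul_le_mul_of_nonneg_left _ h0
        nlinarith
      linarith
    rw [e1]
    have h5 : padicNorm p (U (p ^ r) t * y) * (p : ℚ) ^ 2 ≤ 1 := by
      rw [padicNorm.mul]
      have h0 := padicNorm.nonneg (p := p) y
      have h1 : padicNorm p (U (p ^ r) t) * padicNorm p y ≤ 1 * padicNorm p y :=
        mul_le_mul_of_nonneg_right hU h0
      have h2 : (0 : ℚ) < (p : ℚ) ^ 2 := by positivity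
      nlinarith
    have h6 : (0 : ℚ) < (p : ℚ) ^ 2 := by positivity
    rw [← le_div_iff₀ h6] at ih' h5 ⊢
    exact (padicNorm.nonarchimedean).trans (max_le ih' h5)

lemma F_KK_norm {r K : ℕ} (hodd : Odd p) (hK : 2 * K = p ^ r + 1) (hK2 : 2 ≤ K) (hr : 1 ≤ r) :
    padicNorm p (F K K + (-1) ^ (K - 1) * ((p ^ r : ℕ) : ℚ)) * (p : ℚ) ^ 2 ≤
      padicNorm p ((p ^ r : ℕ) : ℚ) := by
  have hp0 : (0 : ℚ) < p := by exact_mod_cast hp.out.pos
  have hp1 : (1 : ℚ) ≤ p := by exact_mod_cast hp.out.one_lt.le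
  rw [F_KK hK hK2, norm_sq_sign, padicNorm.div, padicNorm.mul, padicNorm.mul (2 * (K : ℚ)),
    padicNorm.mul 2, norm_two hodd, norm_K hodd hK hr]
  simp only [mul_one, div_one]
  have hν0 := norm_n_pos (p := p) r
  have h6 : (0 : ℚ) < (p : ℚ) ^ 2 := by positivity
  have h1 : padicNorm p (((p ^ r : ℕ) : ℚ) * ((p ^ r : ℕ) : ℚ)) * (p : ℚ) ^ 2 ≤ 1 := by
    rw [padicNorm.mul]
    have h2 : padicNorm p ((p ^ r : ℕ) : ℚ) * p ≤ 1 := by
      have := norm_ge_of_lt (p := p) (r := r) (m := 1) one_ne_zero (by omega)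
      simpa using this
    have h3 : 0 ≤ padicNorm p ((p ^ r : ℕ) : ℚ) * p := mul_nonneg hν0.le hp0.le
    nlinarith [mul_le_mul h2 h2 h3 zero_le_one]
  have h2 : padicNorm p ((2 * ((p ^ r : ℕ) : ℚ) + 1) * (1 - U (p ^ r) (K - 1))) * (p : ℚ) ^ 2 ≤ 1 := by
    rw [padicNorm.mul]
    have h3 : padicNorm p (2 * ((p ^ r : ℕ) : ℚ) + 1) ≤ 1 := by
      have := padicNorm.of_nat (p := p) (2 * p ^ r + 1)
      exact_mod_cast this
    have h4 := U_norm (p := p) (r := r) (t := K - 1) hodd (by omega)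
    have h5 := padicNorm.nonneg (p := p) (1 - U (p ^ r) (K - 1))
    have h7 : padicNorm p (2 * ((p ^ r : ℕ) : ℚ) + 1) * padicNorm p (1 - U (p ^ r) (K - 1)) ≤
        1 * padicNorm p (1 - U (p ^ r) (K - 1)) := mul_le_mul_of_nonneg_right h3 h5
    nlinarith
  have h3 : padicNorm p (((p ^ r : ℕ) : ℚ) * ((p ^ r : ℕ) : ℚ) +
      (2 * ((p ^ r : ℕ) : ℚ) + 1) * (1 - U (p ^ r) (K - 1))) * (p : ℚ) ^ 2 ≤ 1 := by
    rw [← le_div_iff₀ h6] at h1 h2 ⊢
    exact (padicNorm.nonarchimedean).trans (max_le h1 h2)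
  calc padicNorm p ((p ^ r : ℕ) : ℚ) * padicNorm p (((p ^ r : ℕ) : ℚ) * ((p ^ r : ℕ) : ℚ) +
      (2 * ((p ^ r : ℕ) : ℚ) + 1) * (1 - U (p ^ r) (K - 1))) * (p : ℚ) ^ 2
      = padicNorm p ((p ^ r : ℕ) : ℚ) * (padicNorm p (((p ^ r : ℕ) : ℚ) * ((p ^ r : ℕ) : ℚ) +
      (2 * ((p ^ r : ℕ) : ℚ) + 1) * (1 - U (p ^ r) (K - 1))) * (p : ℚ) ^ 2) := by ring
    _ ≤ padicNorm p ((p ^ r : ℕ) : ℚ) * 1 := mul_le_mul_of_nonneg_left h3 hν0.le
    _ = _ := by ring

/-! ### Assembly -/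

lemma F_lt {j K : ℕ} (h : j < K) : F j K = 0 := by
  unfold F
  rw [if_neg (by omega)]

lemma sum_lin_eq (N : ℕ) :
    ∑ k ∈ Finset.range (N + 1), (4 * (k : ℚ) - 1) * a k = ∑ j ∈ Finset.range (N + 1), F j 0 :=
  Finset.sum_congr rfl fun k _ => (F_zero k).symm

lemma lin_K {r K : ℕ} (hodd : Odd p) (hK : 2 * K = p ^ r + 1) (hK2 : 2 ≤ K) (hr : 1 ≤ r) :
    padicNorm p (∑ k ∈ Finset.range (K + 1), (4 * (k : ℚ) - 1) * a k +
      (-1) ^ (K - 1) * ((p ^ r : ℕ) : ℚ)) * (p : ℚ) ^ 2 ≤ padicNorm p ((p ^ r : ℕ) : ℚ) := by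
  have hp0 : (0 : ℚ) < p := by exact_mod_cast hp.out.pos
  have h6 : (0 : ℚ) < (p : ℚ) ^ 2 := by positivity
  have hν0 := norm_n_pos (p := p) r
  rw [sum_lin_eq, sum_F K K, Finset.sum_range_succ,
    Finset.sum_eq_zero (fun j hj => F_lt (Finset.mem_range.mp hj)), zero_add]
  have h1 := F_KK_norm (p := p) hodd hK hK2 hr
  have h2 : padicNorm p (∑ k ∈ Finset.range K, G (K + 1) k) ≤
      padicNorm p ((p ^ r : ℕ) : ℚ) / (p : ℚ) ^ 2 := by
    apply padicNorm.sum_le'
    · intro k hk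
      rw [le_div_iff₀ h6]
      exact G_norm_K hodd hK hK2 hr (Finset.mem_range.mp hk)
    · positivity
  rw [← le_div_iff₀ h6] at h1 ⊢
  have e : F K K + ∑ k ∈ Finset.range K, G (K + 1) k + (-1) ^ (K - 1) * ((p ^ r : ℕ) : ℚ) =
      (F K K + (-1) ^ (K - 1) * ((p ^ r : ℕ) : ℚ)) + ∑ k ∈ Finset.range K, G (K + 1) k := by ring
  rw [e]
  exact (padicNorm.nonarchimedean).trans (max_le h1 h2)

lemma lin_n {r K : ℕ} (hodd : Odd p) (hK : 2 * K = p ^ r + 1) (hK2 : 2 ≤ K) (hr : 1 ≤ r) :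
    padicNorm p (∑ k ∈ Finset.range (p ^ r - 1 + 1), (4 * (k : ℚ) - 1) * a k +
      (-1) ^ (K - 1) * ((p ^ r : ℕ) : ℚ)) * (p : ℚ) ^ 2 ≤ padicNorm p ((p ^ r : ℕ) : ℚ) := by
  have hp0 : (0 : ℚ) < p := by exact_mod_cast hp.out.pos
  have h6 : (0 : ℚ) < (p : ℚ) ^ 2 := by positivity
  have hν0 := norm_n_pos (p := p) r
  rw [sum_lin_eq, sum_F (p ^ r - 1) K]
  have e1 : p ^ r - 1 + 1 = p ^ r := by omega
  rw [e1]
  have e2 : ∑ j ∈ Finset.range (p ^ r), F j K =
      F K K + ∑ j ∈ Finset.Ico (K + 1) (p ^ r), F j K := by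
    rw [Finset.range_eq_Ico, ← Finset.sum_Ico_consecutive _ (Nat.zero_le K) (show K ≤ p ^ r by omega),
      Finset.sum_eq_zero (fun j hj => F_lt (Finset.mem_Ico.mp hj).2), zero_add,
      Finset.sum_eq_sum_Ico_succ_bot (show K < p ^ r by omega)]
  rw [e2]
  have h1 := F_KK_norm (p := p) hodd hK hK2 hr
  have h2 : padicNorm p (∑ k ∈ Finset.range K, G (p ^ r) k) ≤
      padicNorm p ((p ^ r : ℕ) : ℚ) / (p : ℚ) ^ 2 := by
    apply padicNorm.sum_le'
    · intro k hk
      rw [le_div_iff₀ h6]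
      exact G_norm_n hodd hK hK2 hr (Finset.mem_range.mp hk)
    · positivity
  have h3 : padicNorm p (∑ j ∈ Finset.Ico (K + 1) (p ^ r), F j K) ≤
      padicNorm p ((p ^ r : ℕ) : ℚ) / (p : ℚ) ^ 2 := by
    apply padicNorm.sum_le'
    · intro j hj
      rw [le_div_iff₀ h6]
      have := Finset.mem_Ico.mp hj
      exact F_norm hodd hK hK2 hr (by omega) (by omega)
    · positivity
  rw [← le_div_iff₀ h6] at h1 ⊢
  have e : F K K + ∑ j ∈ Finset.Ico (K + 1) (p ^ r), F j K +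
      ∑ k ∈ Finset.range K, G (p ^ r) k + (-1) ^ (K - 1) * ((p ^ r : ℕ) : ℚ) =
      (F K K + (-1) ^ (K - 1) * ((p ^ r : ℕ) : ℚ)) +
      (∑ j ∈ Finset.Ico (K + 1) (p ^ r), F j K + ∑ k ∈ Finset.range K, G (p ^ r) k) := by ring
  rw [e]
  exact (padicNorm.nonarchimedean).trans (max_le h1
    ((padicNorm.nonarchimedean).trans (max_le h3 h2)))

/-- the boundary factor -/
lemma bdry_eq (N : ℕ) : ((N : ℚ) + 1) ^ 3 * a (N + 1) =
    (-1) ^ (N + 1) * ((P (N + 1) / ((N.factorial : ℕ) : ℚ)) *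
      ((P (N + 1) / ((N.factorial : ℕ) : ℚ)) * (P (N + 1) / ((N.factorial : ℕ) : ℚ)))) := by
  unfold a
  rw [Nat.factorial_succ]
  have h1 : ((N.factorial : ℕ) : ℚ) ≠ 0 := by positivity
  have h2 : ((N : ℚ) + 1) ≠ 0 := by positivity
  push_cast
  field_simp

lemma bdry_norm {r N : ℕ} (hr : 1 ≤ r)
    (h : padicNorm p (P (N + 1) / ((N.factorial : ℕ) : ℚ)) = padicNorm p ((p ^ r : ℕ) : ℚ)) :
    padicNorm p (((N : ℚ) + 1) ^ 3 * a (N + 1)) * (p : ℚ) ^ 2 ≤ padicNorm p ((p ^ r : ℕ) : ℚ) := by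
  have hp0 : (0 : ℚ) < p := by exact_mod_cast hp.out.pos
  have hν0 := norm_n_pos (p := p) r
  have h2 : padicNorm p ((p ^ r : ℕ) : ℚ) * p ≤ 1 := by
    have := norm_ge_of_lt (p := p) (r := r) (m := 1) one_ne_zero (by
      exact Nat.one_lt_pow (by omega) hp.out.one_lt)
    simpa using this
  rw [bdry_eq, norm_sq_sign, padicNorm.mul, padicNorm.mul, h]
  have h3 : 0 ≤ padicNorm p ((p ^ r : ℕ) : ℚ) * p := mul_nonneg hν0.le hp0.le
  have h4 := mul_le_mul h2 h2 h3 zero_le_one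
  have h5 := mul_le_mul_of_nonneg_left h4 hν0.le
  calc padicNorm p ((p ^ r : ℕ) : ℚ) * (padicNorm p ((p ^ r : ℕ) : ℚ) *
      padicNorm p ((p ^ r : ℕ) : ℚ)) * (p : ℚ) ^ 2
      = padicNorm p ((p ^ r : ℕ) : ℚ) * (padicNorm p ((p ^ r : ℕ) : ℚ) * p *
        (padicNorm p ((p ^ r : ℕ) : ℚ) * p)) := by ring
    _ ≤ padicNorm p ((p ^ r : ℕ) : ℚ) * (1 * 1) := h5
    _ = _ := by ring

lemma bdry_K {r K : ℕ} (hodd : Odd p) (hK : 2 * K = p ^ r + 1) (hK2 : 2 ≤ K) :
    padicNorm p (P (K + 1) / ((K.factorial : ℕ) : ℚ)) = padicNorm p ((p ^ r : ℕ) : ℚ) := by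
  have hA := norm_P_gt (p := p) (r := r) hodd hK hK2 0 (by omega)
  rw [add_zero, Nat.factorial_zero, Nat.cast_one, padicNorm.one, mul_one] at hA
  rw [padicNorm.div, hA]
  have := (norm_fact_pos (p := p) K).ne'
  field_simp

lemma bdry_n {r K : ℕ} (hodd : Odd p) (hK : 2 * K = p ^ r + 1) (hK2 : 2 ≤ K) :
    padicNorm p (P (p ^ r - 1 + 1) / (((p ^ r - 1).factorial : ℕ) : ℚ)) =
      padicNorm p ((p ^ r : ℕ) : ℚ) := by
  have hA := norm_P_gt (p := p) (r := r) hodd hK hK2 (K - 2) (by omega)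
  have eA : K + 1 + (K - 2) = p ^ r - 1 + 1 := by omega
  rw [eA] at hA
  have hN := norm_factorial_pred (p := p) (r := r) K (by omega)
  have eN : p ^ r - 1 - K = K - 2 := by omega
  rw [eN] at hN
  rw [padicNorm.div, hA, hN]
  have h1 := (norm_fact_pos (p := p) K).ne'
  have h2 := (norm_fact_pos (p := p) (K - 2)).ne'
  field_simp

lemma good_bound {r K N : ℕ} {f : ℤ → ℤ} {d : ℤ} (hf : Good f d)
    (h1 : padicNorm p (∑ k ∈ Finset.range (N + 1), (4 * (k : ℚ) - 1) * a k +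
      (-1) ^ (K - 1) * ((p ^ r : ℕ) : ℚ)) * (p : ℚ) ^ 2 ≤ padicNorm p ((p ^ r : ℕ) : ℚ))
    (h2 : padicNorm p (((N : ℚ) + 1) ^ 3 * a (N + 1)) * (p : ℚ) ^ 2 ≤
      padicNorm p ((p ^ r : ℕ) : ℚ)) :
    padicNorm p (∑ k ∈ Finset.range (N + 1), (f (4 * (k : ℤ) - 1) : ℚ) * a k -
      (-d : ℤ) * ((-1) ^ (K - 1) * ((p ^ r : ℕ) : ℚ))) * (p : ℚ) ^ 2 ≤
      padicNorm p ((p ^ r : ℕ) : ℚ) := by
  have hp0 : (0 : ℚ) < p := by exact_mod_cast hp.out.pos
  have h6 : (0 : ℚ) < (p : ℚ) ^ 2 := by positivity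
  obtain ⟨w, hw⟩ := hf
  rw [hw N]
  have e : (d : ℚ) * ∑ k ∈ Finset.range (N + 1), (4 * (k : ℚ) - 1) * a k +
      (w N : ℚ) * (((N : ℚ) + 1) ^ 3 * a (N + 1)) -
      ((-d : ℤ) : ℚ) * ((-1) ^ (K - 1) * ((p ^ r : ℕ) : ℚ)) =
      (d : ℚ) * (∑ k ∈ Finset.range (N + 1), (4 * (k : ℚ) - 1) * a k +
      (-1) ^ (K - 1) * ((p ^ r : ℕ) : ℚ)) + (w N : ℚ) * (((N : ℚ) + 1) ^ 3 * a (N + 1)) := by
    push_cast
    ring
  rw [e]
  rw [← le_div_iff₀ h6] at h1 h2 ⊢
  have hd : padicNorm p (d : ℚ) ≤ 1 := padicNorm.of_int d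
  have hw1 : padicNorm p (w N : ℚ) ≤ 1 := padicNorm.of_int _
  refine (padicNorm.nonarchimedean).trans (max_le ?_ ?_)
  · rw [padicNorm.mul]
    calc _ ≤ 1 * padicNorm p (∑ k ∈ Finset.range (N + 1), (4 * (k : ℚ) - 1) * a k +
      (-1) ^ (K - 1) * ((p ^ r : ℕ) : ℚ)) :=
          mul_le_mul_of_nonneg_right hd (padicNorm.nonneg _)
      _ ≤ _ := by rw [one_mul]; exact h1
  · rw [padicNorm.mul]
    calc _ ≤ 1 * padicNorm p (((N : ℚ) + 1) ^ 3 * a (N + 1)) :=
          mul_le_mul_of_nonneg_right hw1 (padicNorm.nonneg _)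
      _ ≤ _ := by rw [one_mul]; exact h2

lemma sign_eq {q r K : ℕ} (hodd : Odd q) (hK : 2 * K = q ^ r + 1) (hK1 : 1 ≤ K) :
    (-1 : ℚ) ^ (K - 1) = (-1) ^ ((q - 1) * r / 2) := by
  obtain ⟨u, rfl⟩ := hodd
  have h1 : ∀ r : ℕ, ∃ v : ℕ, (2 * u + 1) ^ r = 1 + 2 * (u * r) + 4 * v := by
    intro r
    induction r with
    | zero => exact ⟨0, by simp⟩
    | succ r ih =>
      obtain ⟨v, hv⟩ := ih
      refine ⟨v * (2 * u + 1) + u * u * r, ?_⟩
      rw [pow_succ, hv]
      ring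
  obtain ⟨v, hv⟩ := h1 r
  have e1 : K - 1 = u * r + 2 * v := by omega
  have e2 : (2 * u + 1 - 1) * r / 2 = u * r := by
    rw [Nat.add_sub_cancel, mul_assoc, Nat.mul_div_cancel_left _ (by norm_num)]
  rw [e1, e2, pow_add, pow_mul]
  simp

lemma congr_of_norm {r : ℕ} {x y : ℚ}
    (h : padicNorm p (x - y) * (p : ℚ) ^ 2 ≤ padicNorm p ((p ^ r : ℕ) : ℚ)) :
    CongrModPow p (r + 2) x y := by
  by_cases h0 : x - y = 0
  · exact Or.inl h0
  · right
    have hp1 : (1 : ℚ) < p := by exact_mod_cast hp.out.one_lt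
    have hp0 : (p : ℚ) ≠ 0 := by exact_mod_cast hp.out.ne_zero
    rw [norm_pow_self, padicNorm.eq_zpow_of_nonzero h0] at h
    have e1 : (p : ℚ) ^ (-padicValRat p (x - y)) * (p : ℚ) ^ 2 =
        (p : ℚ) ^ (-padicValRat p (x - y) + 2) := by
      rw [zpow_add₀ hp0]
      norm_cast
    have e2 : ((p : ℚ) ^ r)⁻¹ = (p : ℚ) ^ (-(r : ℤ)) := by
      rw [zpow_neg, zpow_natCast]
    rw [e1, e2] at h
    have h3 := (zpow_le_zpow_iff_right₀ hp1).mp h
    push_cast
    linarith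

lemma both_congr {m : ℕ} {d : ℤ} (hf : Good (fun x => x ^ m) d) {r : ℕ} (hodd : Odd p)
    (hr : 1 ≤ r) :
    CongrModPow p (r + 2) (S m ((p ^ r + 1) / 2))
        (((-d : ℤ) : ℚ) * (p : ℚ) ^ r * (-1) ^ ((p - 1) * r / 2)) ∧
      CongrModPow p (r + 2) (S m (p ^ r - 1))
        (((-d : ℤ) : ℚ) * (p : ℚ) ^ r * (-1) ^ ((p - 1) * r / 2)) := by
  have hoddn : Odd (p ^ r) := hodd.pow
  have hp2 : 1 < p ^ r := Nat.one_lt_pow (by omega) hp.out.one_lt
  obtain ⟨K, hK⟩ : ∃ K, 2 * K = p ^ r + 1 := by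
    obtain ⟨h, hh⟩ := hoddn
    exact ⟨h + 1, by omega⟩
  have hK2 : 2 ≤ K := by omega
  have hKd : (p ^ r + 1) / 2 = K := by omega
  have hsgn := sign_eq (q := p) (r := r) hodd hK (by omega)
  have hS : ∀ N, S m N = ∑ k ∈ Finset.range (N + 1),
      (((fun x : ℤ => x ^ m) (4 * (k : ℤ) - 1) : ℤ) : ℚ) * a k := by
    intro N
    rw [S_eq]
    refine Finset.sum_congr rfl fun k _ => ?_
    push_cast
    ring
  have hR : ((-d : ℤ) : ℚ) * (p : ℚ) ^ r * (-1) ^ ((p - 1) * r / 2) =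
      (-d : ℤ) * ((-1) ^ (K - 1) * ((p ^ r : ℕ) : ℚ)) := by
    rw [hsgn]
    push_cast
    ring
  rw [hKd, hR]
  constructor
  · have h1 := lin_K (p := p) (r := r) hodd hK hK2 hr
    have h2 := bdry_norm (p := p) (r := r) (N := K) hr (bdry_K hodd hK hK2)
    have h3 := good_bound (p := p) (r := r) (K := K) (N := K) hf h1 h2
    rw [← hS] at h3
    exact congr_of_norm h3
  · have h1 := lin_n (p := p) (r := r) hodd hK hK2 hr
    have h2 := bdry_norm (p := p) (r := r) (N := p ^ r - 1) hr (bdry_n hodd hK hK2)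
    have h3 := good_bound (p := p) (r := r) (K := K) (N := p ^ r - 1) hf h1 h2
    rw [← hS] at h3
    exact congr_of_norm h3

end norms

/-- For every odd `m` there is an integer `c_m` such that, for all odd primes `p` and all `r ≥ 1`,
`S_m((p^r+1)/2)` and `S_m(p^r-1)` are congruent to `c_m p^r (-1)^((p-1)r/2)` modulo `p^(r+2)`;
moreover the constants have the predicted values for `m = 1, 3, 5, 7, 9, 11`. -/
theorem result :
    ∃ c : ℕ → ℤ,
      (c 1 = -1 ∧ c 3 = 3 ∧ c 5 = 23 ∧ c 7 = -5 ∧ c 9 = 1647 ∧ c 11 = -96973) ∧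
      ∀ m : ℕ, Odd m → ∀ p : ℕ, p.Prime → Odd p → ∀ r : ℕ, 1 ≤ r →
        CongrModPow p (r + 2) (S m ((p ^ r + 1) / 2))
          ((c m : ℚ) * (p : ℚ) ^ r * (-1) ^ ((p - 1) * r / 2)) ∧
        CongrModPow p (r + 2) (S m (p ^ r - 1))
          ((c m : ℚ) * (p : ℚ) ^ r * (-1) ^ ((p - 1) * r / 2)) := by
  have h1 : Good (fun x => x ^ 1) 1 := Good.id.congr (fun x => by simp) rfl
  have hex : ∀ m : ℕ, ∃ d : ℤ, (Odd m → Good (fun x => x ^ m) d) ∧ (m = 1 → d = 1) ∧
      (m = 3 → d = -3) ∧ (m = 5 → d = -23) ∧ (m = 7 → d = 5) ∧ (m = 9 → d = -1647) ∧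
      (m = 11 → d = 96973) := by
    intro m
    by_cases e1 : m = 1
    · subst e1; exact ⟨1, fun _ => h1, by simp⟩
    by_cases e3 : m = 3
    · subst e3; exact ⟨-3, fun _ => Good.val3, by simp⟩
    by_cases e5 : m = 5
    · subst e5; exact ⟨-23, fun _ => Good.val5, by simp⟩
    by_cases e7 : m = 7
    · subst e7; exact ⟨5, fun _ => Good.val7, by simp⟩
    by_cases e9 : m = 9
    · subst e9; exact ⟨-1647, fun _ => Good.val9, by simp⟩
    by_cases e11 : m = 11
    · subst e11; exact ⟨96973, fun _ => Good.val11, by simp⟩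
    by_cases hm : Odd m
    · obtain ⟨j, rfl⟩ := hm
      obtain ⟨d, hd⟩ := Good.pow j
      exact ⟨d, fun _ => hd, fun h => absurd h e1, fun h => absurd h e3, fun h => absurd h e5,
        fun h => absurd h e7, fun h => absurd h e9, fun h => absurd h e11⟩
    · exact ⟨0, fun h => absurd h hm, fun h => absurd h e1, fun h => absurd h e3,
        fun h => absurd h e5, fun h => absurd h e7, fun h => absurd h e9, fun h => absurd h e11⟩
  choose d hd using hex
  refine ⟨fun m => -d m, ⟨?_, ?_, ?_, ?_, ?_, ?_⟩, ?_⟩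
  · simp [(hd 1).2.1 rfl]
  · simp [(hd 3).2.2.1 rfl]
  · simp [(hd 5).2.2.2.1 rfl]
  · simp [(hd 7).2.2.2.2.1 rfl]
  · simp [(hd 9).2.2.2.2.2.1 rfl]
  · simp [(hd 11).2.2.2.2.2.2 rfl]
  · intro m hm p hp hodd r hr
    have : Fact p.Prime := ⟨hp⟩
    exact both_congr ((hd m).1 hm) hodd hr

end Pool.Agent.Results.MP_638395_nt.AllOddWeights
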